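import Mathlib
import Pool.Agent.H944Z.KormanPoly

set_option autoImplicit false

namespace Pool.Agent.H944Z.Korman

open Set

/-- the square of the positive part -/
noncomputable def chi (s : ℝ) : ℝ := (max s 0) ^ 2

theorem chi_deriv (s : ℝ) : HasDerivAt chi (2 * max s 0) s := by
  rcases lt_trichotomy s 0 with h | h | h
  · have e : chi =ᶠ[nhds s] fun _ => 0 := by
      filter_upwards [Iio_mem_nhds h] with t ht
      simp only [chi, max_eq_right (le_of_lt (mem_Iio.mp ht))]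
      ring
    rw [max_eq_right h.le, mul_zero]
    exact (hasDerivAt_const s (0 : ℝ)).congr_of_eventuallyEq e
  · subst h
    rw [max_self, mul_zero, hasDerivAt_iff_isLittleO_nhds_zero]
    have h2 : (fun t : ℝ => t ^ 2) =o[nhds 0] fun t => t :=
      Asymptotics.isLittleO_pow_id (by norm_num)
    refine Asymptotics.IsBigO.trans_isLittleO ?_ h2
    refine Asymptotics.IsBigO.of_bound 1 (Filter.Eventually.of_forall fun t => ?_)
    simp only [chi, zero_add, max_self, smul_eq_mul, mul_zero, sub_zero, Real.norm_eq_abs, one_mul]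
    rcases le_total t 0 with ht | ht
    · rw [max_eq_right ht]; simp [sq_nonneg]
    · rw [max_eq_left ht]; simp
  · have e : chi =ᶠ[nhds s] fun t => t ^ 2 := by
      filter_upwards [Ioi_mem_nhds h] with t ht
      simp only [chi, max_eq_left (le_of_lt (mem_Ioi.mp ht))]
    rw [max_eq_left h.le]
    have := (hasDerivAt_pow 2 s).congr_of_eventuallyEq e
    simpa using this

theorem chi_contDiff : ContDiff ℝ 1 chi := by
  rw [contDiff_one_iff_deriv]
  refine ⟨fun s => (chi_deriv s).differentiableAt, ?_⟩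
  have : deriv chi = fun s => 2 * max s 0 := funext fun s => (chi_deriv s).deriv
  rw [this]
  fun_prop

noncomputable def U1 (x : ℝ) : ℝ := 20 / (1 + 19 * x) - 1
noncomputable def U1d (x : ℝ) : ℝ := -380 / (1 + 19 * x) ^ 2
noncomputable def U1dd (x : ℝ) : ℝ := 14440 / (1 + 19 * x) ^ 3
noncomputable def U2 (x : ℝ) : ℝ := pe lP x / (1 + 999 * x) ^ 3
noncomputable def U2d (x : ℝ) : ℝ := pe lP1 x / (1 + 999 * x) ^ 4
noncomputable def U2dd (x : ℝ) : ℝ := pe lP2 x / (1 + 999 * x) ^ 5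
noncomputable def beta (x : ℝ) : ℝ :=
  pe lG x * (1 + 19 * x) ^ 2 / ((1 + 999 * x) ^ 3 * pe lE x ^ 2)
noncomputable def betad (x : ℝ) : ℝ :=
  (pd lG x * (1 + 19 * x) ^ 2 * (1 + 999 * x) * pe lE x
    + 38 * pe lG x * (1 + 19 * x) * (1 + 999 * x) * pe lE x
    - 2997 * pe lG x * (1 + 19 * x) ^ 2 * pe lE x
    - 2 * pe lG x * (1 + 19 * x) ^ 2 * (1 + 999 * x) * pd lE x)
    / ((1 + 999 * x) ^ 4 * pe lE x ^ 3)

theorem lin_deriv (k x : ℝ) : HasDerivAt (fun x : ℝ => 1 + k * x) k x := by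
  simpa using ((hasDerivAt_id x).const_mul k).const_add 1

theorem U1_deriv {x : ℝ} (hx : 0 ≤ x) : HasDerivAt U1 (U1d x) x := by
  have hw : (1 + 19 * x) ≠ 0 := by positivity
  have h := ((hasDerivAt_const x (20 : ℝ)).div (lin_deriv 19 x) hw).sub_const 1
  refine HasDerivAt.congr_deriv h ?_
  unfold U1d; field_simp; ring

theorem U1d_deriv {x : ℝ} (hx : 0 ≤ x) : HasDerivAt U1d (U1dd x) x := by
  have hw : (1 + 19 * x) ≠ 0 := by positivity
  have h := (hasDerivAt_const x (-380 : ℝ)).div ((lin_deriv 19 x).pow 2) (pow_ne_zero 2 hw)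
  refine HasDerivAt.congr_deriv h ?_
  unfold U1dd; simp only [Pi.pow_apply]; field_simp; ring

theorem U2_deriv {x : ℝ} (hx : 0 ≤ x) : HasDerivAt U2 (U2d x) x := by
  have hw : (1 + 999 * x) ≠ 0 := by positivity
  have h := (pe_deriv lP x).div ((lin_deriv 999 x).pow 3) (pow_ne_zero 3 hw)
  refine HasDerivAt.congr_deriv h ?_
  unfold U2d; rw [P1_eq]; simp only [Pi.pow_apply]; field_simp; ring

theorem U2d_deriv {x : ℝ} (hx : 0 ≤ x) : HasDerivAt U2d (U2dd x) x := by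
  have hw : (1 + 999 * x) ≠ 0 := by positivity
  have h := (pe_deriv lP1 x).div ((lin_deriv 999 x).pow 4) (pow_ne_zero 4 hw)
  refine HasDerivAt.congr_deriv h ?_
  unfold U2dd; rw [P2_eq]; simp only [Pi.pow_apply]; field_simp; ring

theorem beta_deriv {x : ℝ} (h0 : 0 ≤ x) (h1 : x ≤ 1) : HasDerivAt beta (betad x) x := by
  have hw : (1 + 999 * x) ≠ 0 := by positivity
  have hE : pe lE x ≠ 0 := (E_pos x h0 h1).ne'
  have h := ((pe_deriv lG x).mul ((lin_deriv 19 x).pow 2)).div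
    (((lin_deriv 999 x).pow 3).mul ((pe_deriv lE x).pow 2))
    (mul_ne_zero (pow_ne_zero 3 hw) (pow_ne_zero 2 hE))
  refine HasDerivAt.congr_deriv h ?_
  unfold betad; simp only [Pi.pow_apply, Pi.mul_apply]; field_simp; ring

theorem beta_nonneg {x : ℝ} (h0 : 0 ≤ x) (h1 : x ≤ 1) : 0 ≤ beta x := by
  have := G_nonneg x h0 h1
  have := E_pos x h0 h1
  unfold beta
  positivity

theorem U1d_nonpos (x : ℝ) : U1d x ≤ 0 := by
  unfold U1d
  exact div_nonpos_of_nonpos_of_nonneg (by norm_num) (sq_nonneg _)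

theorem key {x : ℝ} (h0 : 0 ≤ x) (h1 : x ≤ 1) : betad x * U1 x + 2 * beta x * U1d x ≤ 0 := by
  have hN := N_nonneg x h0 h1
  have hE := E_pos x h0 h1
  have hw : (1 + 19 * x) ≠ 0 := by positivity
  have hq : (1 + 999 * x) ≠ 0 := by positivity
  have e : betad x * U1 x + 2 * beta x * U1d x =
      -(19 * (1 + 19 * x) * (-((1 - x) * (1 + 999 * x) * pe lE x * pd lG x)
        + 2 * (1 + 999 * x) * pe lE x * pe lG x
      + 2997 * (1 - x) * pe lE x * pe lG x + 2 * (1 - x) * (1 + 999 * x) * pd lE x * pe lG x)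
        / ((1 + 999 * x) ^ 4 * pe lE x ^ 3)) := by
    unfold betad beta U1 U1d
    field_simp
    ring
  rw [e, neg_nonpos]
  positivity

/-- the nonlinearity -/
noncomputable def f (r u : ℝ) : ℝ := (u + 1) ^ 3 + beta (r ^ 2) * chi (U1 (r ^ 2) - u)

theorem sq_deriv (r : ℝ) : HasDerivAt (fun r : ℝ => r ^ 2) (2 * r) r := by
  simpa using hasDerivAt_pow 2 r

theorem comp_sq {U : ℝ → ℝ} {d r : ℝ} (h : HasDerivAt U d (r ^ 2)) :
    HasDerivAt (fun s => U (s ^ 2)) (d * (2 * r)) r :=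
  HasDerivAt.comp (h := fun s : ℝ => s ^ 2) r h (sq_deriv r)

theorem f_deriv {r u : ℝ} (hr : r ∈ Icc (0 : ℝ) 1) (hu : 0 ≤ u) :
    ∃ d : ℝ, HasDerivAt (fun s => f s u) d r ∧ d ≤ 0 := by
  have h0 : 0 ≤ r ^ 2 := sq_nonneg r
  have h1 : r ^ 2 ≤ 1 := pow_le_one₀ hr.1 hr.2
  have hb : HasDerivAt (fun s : ℝ => beta (s ^ 2)) (betad (r ^ 2) * (2 * r)) r :=
    comp_sq (beta_deriv h0 h1)
  have hU : HasDerivAt (fun s : ℝ => U1 (s ^ 2) - u) (U1d (r ^ 2) * (2 * r)) r :=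
    (comp_sq (U1_deriv h0)).sub_const u
  have hc : HasDerivAt (fun s : ℝ => chi (U1 (s ^ 2) - u))
      (2 * max (U1 (r ^ 2) - u) 0 * (U1d (r ^ 2) * (2 * r))) r :=
    (chi_deriv _).comp r hU
  refine ⟨_, (hb.mul hc).const_add ((u + 1) ^ 3), ?_⟩
  have hk := key h0 h1
  have hb0 := beta_nonneg h0 h1
  have hd := U1d_nonpos (r ^ 2)
  unfold chi
  set m := max (U1 (r ^ 2) - u) 0 with hm
  have hm0 : 0 ≤ m := le_max_right _ _
  have hbd : 2 * beta (r ^ 2) * U1d (r ^ 2) ≤ 0 :=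
    mul_nonpos_of_nonneg_of_nonpos (by positivity) hd
  have main : betad (r ^ 2) * m + 2 * beta (r ^ 2) * U1d (r ^ 2) ≤ 0 := by
    rcases le_total (betad (r ^ 2)) 0 with hs | hs
    · have := mul_nonpos_of_nonpos_of_nonneg hs hm0
      linarith
    · have hU0 : 0 ≤ U1 (r ^ 2) := by
        unfold U1
        rw [sub_nonneg, le_div_iff₀ (by positivity)]
        linarith
      have : m ≤ U1 (r ^ 2) := max_le (by linarith) hU0
      have := mul_le_mul_of_nonneg_left this hs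
      linarith
  have e : betad (r ^ 2) * (2 * r) * m ^ 2 + beta (r ^ 2) * (2 * m * (U1d (r ^ 2) * (2 * r))) =
      (2 * r * m) * (betad (r ^ 2) * m + 2 * beta (r ^ 2) * U1d (r ^ 2)) := by ring
  rw [e]
  have := hr.1
  exact mul_nonpos_of_nonneg_of_nonpos (by positivity) main

theorem f_pos {r u : ℝ} (hr : r ∈ Icc (0 : ℝ) 1) (hu : 0 ≤ u) : 0 < f r u := by
  have hb0 := beta_nonneg (sq_nonneg r) (pow_le_one₀ hr.1 hr.2)
  unfold f chi
  positivity

theorem f_contDiffOn :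
    ContDiffOn ℝ 1 (fun p : ℝ × ℝ => f p.1 p.2) (Icc (0 : ℝ) 1 ×ˢ Ici (0 : ℝ)) := by
  have hsq : ContDiff ℝ 1 (fun p : ℝ × ℝ => p.1 ^ 2) := by fun_prop
  have hG : ContDiff ℝ 1 (fun p : ℝ × ℝ => pe lG (p.1 ^ 2)) := (pe_contDiff lG 1).comp hsq
  have hE : ContDiff ℝ 1 (fun p : ℝ × ℝ => pe lE (p.1 ^ 2)) := (pe_contDiff lE 1).comp hsq
  have hb : ContDiffOn ℝ 1 (fun p : ℝ × ℝ => beta (p.1 ^ 2)) (Icc (0 : ℝ) 1 ×ˢ Ici (0 : ℝ)) := by
    unfold beta
    refine ContDiffOn.div (hG.mul (by fun_prop)).contDiffOn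
      (ContDiff.mul (by fun_prop) (hE.pow 2)).contDiffOn ?_
    intro p hp
    have := E_pos (p.1 ^ 2) (sq_nonneg _) (pow_le_one₀ hp.1.1 hp.1.2)
    positivity
  have hU : ContDiff ℝ 1 (fun p : ℝ × ℝ => U1 (p.1 ^ 2) - p.2) := by
    unfold U1
    refine ContDiff.sub (ContDiff.sub (ContDiff.div contDiff_const (by fun_prop) ?_)
      contDiff_const) contDiff_snd
    intro p
    positivity
  unfold f
  exact ContDiffOn.add (by fun_prop) (hb.mul (chi_contDiff.comp hU).contDiffOn)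

theorem radial {U Ud Udd : ℝ → ℝ} (h1 : ∀ x, 0 ≤ x → HasDerivAt U (Ud x) x)
    (h2 : ∀ x, 0 ≤ x → HasDerivAt Ud (Udd x) x) :
    deriv (fun r => U (r ^ 2)) = (fun r => Ud (r ^ 2) * (2 * r)) ∧
    ∀ r, deriv (deriv (fun r => U (r ^ 2))) r = Udd (r ^ 2) * (2 * r) * (2 * r) + Ud (r ^ 2) * 2 := by
  have e : deriv (fun r => U (r ^ 2)) = (fun r => Ud (r ^ 2) * (2 * r)) :=
    funext fun r => (comp_sq (h1 _ (sq_nonneg r))).deriv
  refine ⟨e, fun r => ?_⟩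
  rw [e]
  have h3 : HasDerivAt (fun r : ℝ => 2 * r) 2 r := by
    simpa using (hasDerivAt_id r).const_mul 2
  exact ((comp_sq (h2 _ (sq_nonneg r))).mul h3).deriv

theorem ode1 {x : ℝ} (h0 : 0 ≤ x) :
    4 * x * U1dd x + 8 * U1d x + 19 / 50 * ((U1 x + 1) ^ 3 + beta x * chi (U1 x - U1 x)) = 0 := by
  have hw : (1 + 19 * x) ≠ 0 := by positivity
  have : chi (U1 x - U1 x) = 0 := by simp [chi]
  rw [this]
  unfold U1 U1d U1dd
  field_simp
  ring

theorem ode2 {x : ℝ} (h0 : 0 ≤ x) (h1 : x ≤ 1) :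
    4 * x * U2dd x + 8 * U2d x + 2 / 5 * ((U2 x + 1) ^ 3 + beta x * chi (U1 x - U2 x)) = 0 := by
  have hw : (1 + 19 * x) ≠ 0 := by positivity
  have hq : (1 + 999 * x) ≠ 0 := by positivity
  have hE := E_pos x h0 h1
  have hy : 0 ≤ 1 - x := by linarith
  have hD : U1 x - U2 x = x * (1 - x) * pe lE x / ((1 + 19 * x) * (1 + 999 * x) ^ 3) := by
    unfold U1 U2
    rw [P_eq, mul_comm x (1 - x), mul_assoc, ← E_eq]
    field_simp
    ring
  have hD0 : 0 ≤ U1 x - U2 x := by rw [hD]; positivity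
  have hc : beta x * chi (U1 x - U2 x) = x ^ 2 * (1 - x) ^ 2 * pe lG x / (1 + 999 * x) ^ 9 := by
    unfold chi beta
    rw [max_eq_left hD0, hD]
    field_simp
  rw [hc]
  have hG := G_eq x
  unfold U2 U2d U2dd
  field_simp
  linear_combination hG

theorem main :
    ∃ (f : ℝ → ℝ → ℝ) (l₁ l₂ : ℝ) (u₁ u₂ : ℝ → ℝ),
      ContDiffOn ℝ 1 (fun p : ℝ × ℝ => f p.1 p.2) (Icc (0 : ℝ) 1 ×ˢ Ici (0 : ℝ)) ∧
      (∀ r ∈ Icc (0 : ℝ) 1, ∀ u : ℝ, 0 ≤ u → derivWithin (fun s => f s u) (Icc 0 1) r ≤ 0) ∧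
      (∀ r ∈ Icc (0 : ℝ) 1, ∀ u : ℝ, 0 ≤ u → 0 < f r u) ∧
      0 < l₁ ∧ 0 < l₂ ∧ l₁ ≠ l₂ ∧
      (ContDiff ℝ 2 u₁ ∧
        (∀ r ∈ Ioo (0 : ℝ) 1,
          deriv (deriv u₁) r + (4 - 1) / r * deriv u₁ r + l₁ * f r (u₁ r) = 0) ∧
        deriv u₁ 0 = 0 ∧ u₁ 1 = 0 ∧ ∀ r ∈ Ico (0 : ℝ) 1, 0 < u₁ r) ∧
      (ContDiff ℝ 2 u₂ ∧
        (∀ r ∈ Ioo (0 : ℝ) 1,
          deriv (deriv u₂) r + (4 - 1) / r * deriv u₂ r + l₂ * f r (u₂ r) = 0) ∧
        deriv u₂ 0 = 0 ∧ u₂ 1 = 0 ∧ ∀ r ∈ Ico (0 : ℝ) 1, 0 < u₂ r) ∧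
      u₁ 0 = u₂ 0 := by
  obtain ⟨a1, a2⟩ := radial (fun x hx => U1_deriv hx) (fun x hx => U1d_deriv hx)
  obtain ⟨b1, b2⟩ := radial (fun x hx => U2_deriv hx) (fun x hx => U2d_deriv hx)
  refine ⟨f, 19 / 50, 2 / 5, fun r => U1 (r ^ 2), fun r => U2 (r ^ 2), f_contDiffOn, ?_,
    fun r hr u hu => f_pos hr hu, by norm_num, by norm_num, by norm_num,
    ⟨?_, ?_, ?_, ?_, ?_⟩, ⟨?_, ?_, ?_, ?_, ?_⟩, ?_⟩
  · intro r hr u hu
    obtain ⟨d, hd, hd0⟩ := f_deriv hr hu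
    rw [hd.hasDerivWithinAt.derivWithin (uniqueDiffOn_Icc zero_lt_one r hr)]
    exact hd0
  · unfold U1
    refine ContDiff.sub (ContDiff.div contDiff_const (by fun_prop) ?_) contDiff_const
    intro r
    positivity
  · intro r hr
    rw [a2 r, a1]
    have h := ode1 (sq_nonneg r)
    have hr0 : r ≠ 0 := hr.1.ne'
    have e : (4 - 1) / r * (U1d (r ^ 2) * (2 * r)) = 6 * U1d (r ^ 2) := by
      field_simp
      ring
    unfold f
    beta_reduce
    rw [e]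
    linear_combination h
  · rw [a1]; simp
  · simp only [U1]; norm_num
  · intro r hr
    have : r ^ 2 < 1 := pow_lt_one₀ hr.1 hr.2 (by norm_num)
    simp only [U1]
    rw [sub_pos, lt_div_iff₀ (by positivity)]
    linarith
  · unfold U2
    refine ContDiff.div ((pe_contDiff lP 2).comp (by fun_prop)) (by fun_prop) ?_
    intro r
    positivity
  · intro r hr
    rw [b2 r, b1]
    have h := ode2 (sq_nonneg r) (pow_le_one₀ hr.1.le hr.2.le)
    have hr0 : r ≠ 0 := hr.1.ne'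
    have e : (4 - 1) / r * (U2d (r ^ 2) * (2 * r)) = 6 * U2d (r ^ 2) := by
      field_simp
      ring
    unfold f
    beta_reduce
    rw [e]
    linear_combination h
  · rw [b1]; simp
  · simp only [U2, P_eq]; norm_num
  · intro r hr
    have h1 : r ^ 2 < 1 := pow_lt_one₀ hr.1 hr.2 (by norm_num)
    have h2 := R_pos (r ^ 2) (sq_nonneg r) h1.le
    have h3 : 0 < 1 - r ^ 2 := by linarith
    simp only [U2, P_eq]
    positivity
  · have : (0 : ℝ) ^ 2 = 0 := by norm_num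
    simp only [U1, U2, this, P_zero]
    norm_num

end Pool.Agent.H944Z.Korman
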